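import Pool.Agent.S09000

open Topology Filter Pool.Agent.S09000

namespace Pool.Agent.Results.MP_d4b900_gt.OpenCovers

/-- the topology of pointwise convergence on the continuous real functions -/
@[reducible] def ptop (X : Type) [TopologicalSpace X] : TopologicalSpace C(X, ℝ) :=
  TopologicalSpace.induced (fun f : C(X, ℝ) => (f : X → ℝ)) inferInstance

/-- the function spaces, with the topology of pointwise convergence, are linearly homeomorphic -/
def LEquivalent (X Y : Type) [TopologicalSpace X] [TopologicalSpace Y] : Prop :=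
  ∃ T : C(X, ℝ) ≃ₗ[ℝ] C(Y, ℝ),
    @Continuous C(X, ℝ) C(Y, ℝ) (ptop X) (ptop Y) T ∧
      @Continuous C(Y, ℝ) C(X, ℝ) (ptop Y) (ptop X) T.symm

/-- every countable open cover has a finite subcover -/
def CountablyCompact (X : Type) [TopologicalSpace X] : Prop :=
  ∀ U : ℕ → Set X, (∀ n, IsOpen (U n)) → (⋃ n, U n) = Set.univ →
    ∃ F : Finset ℕ, (⋃ n ∈ F, U n) = Set.univ

theorem cc_of_cluster {X : Type} [TopologicalSpace X]
    (h : ∀ u : ℕ → X, ∃ x : X, MapClusterPt x atTop u) : CountablyCompact X := by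
  intro U hU hcov
  by_contra hcon
  push Not at hcon
  have h1 : ∀ N : ℕ, ∃ x : X, x ∉ ⋃ n ∈ Finset.range N, U n := by
    intro N
    by_contra h2
    push Not at h2
    exact hcon (Finset.range N) (Set.eq_univ_of_forall h2)
  choose u hu using h1
  obtain ⟨x, hx⟩ := h u
  have h2 : x ∈ ⋃ n, U n := by rw [hcov]; trivial
  obtain ⟨n, hn⟩ := Set.mem_iUnion.mp h2
  have h3 := hx.frequently ((hU n).mem_nhds hn)
  obtain ⟨N, hN, h4⟩ := (h3.and_eventually (eventually_ge_atTop (n + 1))).exists
  apply hu N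
  simp only [Set.mem_iUnion, Finset.mem_range]
  exact ⟨n, by omega, hN⟩

theorem cluster_of_cc {X : Type} [TopologicalSpace X] (h : CountablyCompact X) (u : ℕ → X) :
    ∃ x : X, MapClusterPt x atTop u := by
  by_contra hcon
  push Not at hcon
  let U : ℕ → Set X := fun N => (closure (u '' Set.Ici N))ᶜ
  have hcov : (⋃ n, U n) = Set.univ := by
    refine Set.eq_univ_of_forall fun x => ?_
    have h1 := hcon x
    rw [mapClusterPt_iff_frequently] at h1
    push Not at h1
    obtain ⟨s, hs, h2⟩ := h1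
    rw [Filter.eventually_atTop] at h2
    obtain ⟨N, hN⟩ := h2
    refine Set.mem_iUnion.mpr ⟨N, ?_⟩
    intro hx
    rw [mem_closure_iff_nhds] at hx
    obtain ⟨y, hy, ⟨m, hm, rfl⟩⟩ := hx s hs
    exact hN m hm hy
  obtain ⟨F, hF⟩ := h U (fun n => isClosed_closure.isOpen_compl) hcov
  let M := F.sup id
  have h1 : u M ∈ ⋃ n ∈ F, U n := by rw [hF]; trivial
  simp only [Set.mem_iUnion] at h1
  obtain ⟨n, hn, h2⟩ := h1
  apply h2
  exact subset_closure ⟨M, Finset.le_sup (f := id) hn, rfl⟩

/-- There are Tychonoff spaces `X` and `Y` with linearly homeomorphic function spaces such that `X`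
is countably compact and `Y` is not. -/
theorem result : ∃ (X Y : Type) (_ : TopologicalSpace X) (_ : TopologicalSpace Y),
    T35Space X ∧ T35Space Y ∧ LEquivalent X Y ∧ CountablyCompact X ∧ ¬ CountablyCompact Y := by
  by_contra hcon
  apply Pool.Agent.S09000.result
  intro X Y _ _ _ _ T h1 h2 h3
  by_contra h4
  exact hcon ⟨X, Y, inferInstance, inferInstance, inferInstance, inferInstance, ⟨T, h1, h2⟩,
    cc_of_cluster h3, fun h5 => h4 fun v => cluster_of_cc h5 v⟩

end Pool.Agent.Results.MP_d4b900_gt.OpenCovers
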